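import Pool.Agent.Lib.MP_800ada_gt.Iso

open Matrix

namespace Pool.Agent.Results.MP_800ada_gt.SizesEqual

open Pool.Agent.Lib.MP_800ada_gt

/-- Let `Λ = ℤ[t^{±1}]`.
(1) For every `Λ`-module `H` on which `1 - t` acts surjectively and every pairing
`lam : H × H → Frac(Λ)/Λ`, the set of sizes of the hermitian matrices `A` over `Λ` with
`det A ≠ 0` presenting `lam` does not change if one asks in addition that `A(1)` be congruent
over `ℤ` to a diagonal matrix with entries `±1`. In particular the two minima agree.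
(2) This applies to the Blanchfield pairing
`(a, b) ↦ ā^T (1 - t) (t V - Vᵀ)⁻¹ b` on `Λ^{2g} / (t V - Vᵀ) Λ^{2g}` of every knot, `V` being an
arbitrary Seifert matrix, that is, an integral `2g × 2g` matrix with `det (V - Vᵀ) = 1`: the
pairing is well defined by the formula, `1 - t` acts surjectively, the two sets of sizes agree and
so do the two minima, `n(K) = n₀(K)`. -/
theorem result :
    (∀ (H : Type) [AddCommGroup H] [Module Lam H] (lam : H → H → FracMod Lam), OneSubOnto H →
      sizes lam = sizes0 lam ∧ ∀ n : ℕ, IsLeast (sizes lam) n ↔ IsLeast (sizes0 lam) n) ∧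
    (∀ (g : ℕ) (V : Matrix (Fin (2 * g)) (Fin (2 * g)) ℤ), (V - Vᵀ).det = 1 →
      BlanchWellDefined V ∧ OneSubOnto (Cok (seif V)) ∧
      sizes (blanch V) = sizes0 (blanch V) ∧
      ∀ n : ℕ, IsLeast (sizes (blanch V)) n ↔ IsLeast (sizes0 (blanch V)) n) := by
  refine ⟨?_, ?_⟩
  · intro H _ _ lam hH
    have h := sizes_eq_sizes0 lam hH
    exact ⟨h, fun n => by rw [h]⟩
  · intro g V hV
    have h := sizes_eq_sizes0 (blanch V) (seif_surj V hV)
    exact ⟨blanch_mk V hV, seif_surj V hV, h, fun n => by rw [h]⟩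

end Pool.Agent.Results.MP_800ada_gt.SizesEqual
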